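import Mathlib

/-!
Generic solvability from one nondegenerate solution over an arbitrary field.
-/

open MvPolynomial TensorProduct

namespace Pool.Agent.LibGenericSolve

/-- Smooth algebra over a domain: generic points lift. -/
theorem exists_lift_of_smooth {R T : Type} [CommRing R] [IsDomain R] [CommRing T] [Nontrivial T]
    [Algebra R T] [Algebra.Smooth R T] :
    ∃ g : R, g ≠ 0 ∧ ∀ (Ω : Type) [Field Ω] [IsAlgClosed Ω] (φ : R →+* Ω), φ g ≠ 0 →
      ∃ ψ : T →+* Ω, ψ.comp (algebraMap R T) = φ := by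
  classical
  have hflat : Module.Flat R T := inferInstance
  have hopen : IsOpenMap (PrimeSpectrum.comap (algebraMap R T)) :=
    PrimeSpectrum.isOpenMap_comap_of_hasGoingDown_of_finitePresentation
  have hU : IsOpen (Set.range (PrimeSpectrum.comap (algebraMap R T))) := hopen.isOpen_range
  obtain ⟨x⟩ : Nonempty (PrimeSpectrum T) := inferInstance
  have hx : PrimeSpectrum.comap (algebraMap R T) x ∈
      Set.range (PrimeSpectrum.comap (algebraMap R T)) := ⟨x, rfl⟩
  obtain ⟨_, ⟨g, rfl⟩, hxg, hgU⟩ :=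
    PrimeSpectrum.isTopologicalBasis_basic_opens.exists_subset_of_mem_open hx hU
  refine ⟨g, ?_, ?_⟩
  · rintro rfl
    simp at hxg
  · intro Ω _ _ φ hφ
    obtain ⟨p, hpk⟩ : ∃ p : PrimeSpectrum R, p.asIdeal = RingHom.ker φ :=
      ⟨⟨RingHom.ker φ, RingHom.ker_isPrime φ⟩, rfl⟩
    have hp : p ∈ (PrimeSpectrum.basicOpen g : Set (PrimeSpectrum R)) := by
      simpa [hpk] using hφ
    have hpr := hgU hp
    rw [← PrimeSpectrum.nontrivial_iff_mem_rangeComap] at hpr
    let : Algebra R Ω := φ.toAlgebra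
    let κ := p.asIdeal.ResidueField
    let φκ : κ →+* Ω := Ideal.ResidueField.lift p.asIdeal φ hpk.le (by
      intro x hx
      simp only [Submonoid.mem_comap, IsUnit.mem_submonoid_iff, isUnit_iff_ne_zero]
      intro h0
      apply hx
      rw [hpk]
      exact h0)
    let : Algebra κ Ω := φκ.toAlgebra
    have : IsScalarTower R κ Ω := IsScalarTower.of_algebraMap_eq (by
      intro r
      change φ r = φκ (algebraMap R κ r)
      simp [φκ, κ])
    have hnt : Nontrivial (Ω ⊗[R] T) := by
      have h1 : Nontrivial (Ω ⊗[κ] (κ ⊗[R] T)) := inferInstance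
      exact (Algebra.TensorProduct.cancelBaseChange R κ κ Ω T).symm.toEquiv.nontrivial
    obtain ⟨m, hm⟩ := Ideal.exists_maximal (Ω ⊗[R] T)
    let := Ideal.Quotient.field m
    have hft : Algebra.FiniteType Ω ((Ω ⊗[R] T) ⧸ m) := inferInstance
    have hfin := finite_of_finite_type_of_isJacobsonRing Ω ((Ω ⊗[R] T) ⧸ m)
    have hbij : Function.Bijective (algebraMap Ω ((Ω ⊗[R] T) ⧸ m)) :=
      IsAlgClosed.algebraMap_bijective_of_isIntegral
    let e : Ω ≃+* ((Ω ⊗[R] T) ⧸ m) := RingEquiv.ofBijective _ hbij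
    refine ⟨(e.symm : _ →+* Ω).comp ((Ideal.Quotient.mk m).comp
      (Algebra.TensorProduct.includeRight (R := R) (A := Ω) (B := T)).toRingHom), ?_⟩
    ext r
    simp only [RingHom.coe_comp, Function.comp_apply, RingHom.coe_coe]
    rw [RingEquiv.symm_apply_eq]
    change (Ideal.Quotient.mk m) ((Algebra.TensorProduct.includeRight) (algebraMap R T r)) = _
    rw [AlgHom.commutes]
    change _ = algebraMap Ω _ (algebraMap R Ω r)
    rw [← IsScalarTower.algebraMap_apply]
    rfl

/-- Inverting the Jacobian of a pre-submersive presentation (and anything else) gives a standard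
smooth algebra. -/
theorem isStandardSmooth_away {R S T σ ι : Type} [CommRing R] [CommRing S] [CommRing T]
    [Algebra R S] [Algebra S T] [Algebra R T] [IsScalarTower R S T] [Finite σ] [Finite ι]
    (P : Algebra.PreSubmersivePresentation R S σ ι) (δ : S)
    [IsLocalization.Away (P.jacobian * δ) T] : Algebra.IsStandardSmooth R T := by
  have hunit : IsUnit (algebraMap S T (P.jacobian * δ)) :=
    IsLocalization.Away.algebraMap_isUnit (S := T) (P.jacobian * δ)
  have hunitJ : IsUnit (algebraMap S T P.jacobian) := by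
    rw [map_mul] at hunit
    exact isUnit_of_mul_isUnit_left hunit
  let Q : Algebra.PreSubmersivePresentation S T Unit Unit :=
    Algebra.PreSubmersivePresentation.localizationAway T (P.jacobian * δ)
  let PQ : Algebra.SubmersivePresentation R T (Unit ⊕ σ) (Unit ⊕ ι) :=
    { Q.comp P with
      jacobian_isUnit := by
        rw [Algebra.PreSubmersivePresentation.comp_jacobian_eq_jacobian_smul_jacobian,
          Algebra.smul_def, IsUnit.mul_iff]
        refine ⟨hunitJ, ?_⟩
        rw [Algebra.PreSubmersivePresentation.localizationAway_jacobian]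
        exact hunit }
  exact PQ.isStandardSmooth

theorem isUnit_of_away_mul {S : Type} (T : Type) [CommRing S] [CommRing T] [Algebra S T] (a b : S)
    [IsLocalization.Away (a * b) T] : IsUnit (algebraMap S T b) := by
  have hunit : IsUnit (algebraMap S T (a * b)) :=
    IsLocalization.Away.algebraMap_isUnit (S := T) (a * b)
  rw [map_mul] at hunit
  exact isUnit_of_mul_isUnit_right hunit

theorem exists_generic_solution_aux {R S₀ ι σ : Type} [CommRing R] [IsDomain R] [CommRing S₀]
    [Algebra R S₀] [Fintype ι] [DecidableEq ι] [Finite σ]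
    (f : ι → MvPolynomial σ R) (a : ι → σ)
    (δ : MvPolynomial σ R) {K : Type} [Field K] (φ₀ : R →+* K) (x₀ : σ → K)
    (hJ : (Matrix.of fun i j => eval₂Hom φ₀ x₀ (pderiv (a i) (f j))).det ≠ 0)
    (hδ : eval₂Hom φ₀ x₀ δ ≠ 0)
    (P₀ : Algebra.PreSubmersivePresentation R S₀ σ ι) (mk : MvPolynomial σ R →+* S₀)
    (hP₀ : ∀ i j, P₀.jacobiMatrix i j = pderiv (a i) (f j))
    (hJJ : P₀.jacobian = mk P₀.jacobiMatrix.det)
    (hspan : ∀ i, mk (f i) = 0)
    (θ : S₀ →+* K) (hθ : ∀ p, θ (mk p) = eval₂Hom φ₀ x₀ p)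
    (hmkC : ∀ r : R, mk (C r) = algebraMap R S₀ r) :
    ∃ g : R, g ≠ 0 ∧ ∀ (Ω : Type) [Field Ω] [IsAlgClosed Ω] (φ : R →+* Ω), φ g ≠ 0 →
        ∃ x : σ → Ω, (∀ i, eval₂Hom φ x (f i) = 0) ∧ eval₂Hom φ x δ ≠ 0 := by
  classical
  have hJ₀ : θ P₀.jacobian ≠ 0 := by
    rw [hJJ, hθ, RingHom.map_det]
    convert hJ using 2
    ext i j
    simp only [RingHom.mapMatrix_apply, Matrix.map_apply, Matrix.of_apply]
    rw [hP₀]
  obtain ⟨T, _, _, _, _, hT⟩ : ∃ (T : Type) (_ : CommRing T) (_ : Algebra S₀ T)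
      (_ : Algebra R T) (_ : IsScalarTower R S₀ T),
      IsLocalization.Away (P₀.jacobian * mk δ) T :=
    ⟨Localization.Away (P₀.jacobian * mk δ), inferInstance, inferInstance, inferInstance,
      inferInstance, inferInstance⟩
  have hunitδ := isUnit_of_away_mul T P₀.jacobian (mk δ)
  have : Algebra.IsStandardSmooth R T := isStandardSmooth_away P₀ (mk δ)
  have hTK : ∃ θ' : T →+* K, True := by
    have hu : IsUnit (θ (P₀.jacobian * mk δ)) := by
      rw [map_mul, isUnit_iff_ne_zero, hθ]
      exact mul_ne_zero hJ₀ hδ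
    exact ⟨IsLocalization.Away.lift (P₀.jacobian * mk δ) hu, trivial⟩
  obtain ⟨θ', -⟩ := hTK
  have : Nontrivial T := RingHom.domain_nontrivial θ'
  obtain ⟨g, hg0, hg⟩ := exists_lift_of_smooth (R := R) (T := T)
  refine ⟨g, hg0, ?_⟩
  intro Ω _ _ φ hφ
  obtain ⟨ψ, hψ⟩ := hg Ω φ hφ
  have hcomp : (ψ.comp (algebraMap S₀ T)).comp mk =
      eval₂Hom φ (fun i => ψ (algebraMap S₀ T (mk (X i)))) := by
    apply MvPolynomial.ringHom_ext'
    · ext r
      have h2 := RingHom.congr_fun hψ r
      simp only [RingHom.coe_comp, Function.comp_apply, hmkC] at h2 ⊢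
      rw [← IsScalarTower.algebraMap_apply, h2]
      simp
    · intro i
      simp
  refine ⟨fun i => ψ (algebraMap S₀ T (mk (X i))), ?_, ?_⟩
  · intro i
    rw [← hcomp]
    simp only [RingHom.coe_comp, Function.comp_apply]
    rw [hspan, map_zero, map_zero]
  · rw [← hcomp]
    simp only [RingHom.coe_comp, Function.comp_apply]
    exact (hunitδ.map ψ).ne_zero

/-- A system of polynomial equations over a domain `R` with a solution over some field
at which the Jacobian minor with respect to chosen unknowns is nonzero, and at which `δ` is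
nonzero, is solvable over every algebraically closed field under every homomorphism that does not
kill a certain nonzero element of `R`, with `δ` nonzero at the solution. -/
theorem exists_generic_solution_ring {R ι σ : Type} [CommRing R] [IsDomain R] [Fintype ι]
    [DecidableEq ι] [Finite σ]
    (f : ι → MvPolynomial σ R) (a : ι → σ) (ha : Function.Injective a)
    (δ : MvPolynomial σ R) {K : Type} [Field K] (φ₀ : R →+* K) (x₀ : σ → K)
    (hf : ∀ i, eval₂Hom φ₀ x₀ (f i) = 0)
    (hJ : (Matrix.of fun i j => eval₂Hom φ₀ x₀ (pderiv (a i) (f j))).det ≠ 0)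
    (hδ : eval₂Hom φ₀ x₀ δ ≠ 0) :
    ∃ g : R, g ≠ 0 ∧ ∀ (Ω : Type) [Field Ω] [IsAlgClosed Ω] (φ : R →+* Ω), φ g ≠ 0 →
        ∃ x : σ → Ω, (∀ i, eval₂Hom φ x (f i) = 0) ∧ eval₂Hom φ x δ ≠ 0 := by
  classical
  let P₀ : Algebra.PreSubmersivePresentation R (MvPolynomial σ R ⧸ Ideal.span (Set.range f)) σ ι :=
    Algebra.PreSubmersivePresentation.naive a ha
  have hP₀ : ∀ i j, P₀.jacobiMatrix i j = pderiv (a i) (f j) := fun i j =>
    Algebra.PreSubmersivePresentation.jacobiMatrix_apply _ _ _
  have hJJ : P₀.jacobian = Ideal.Quotient.mk (Ideal.span (Set.range f)) P₀.jacobiMatrix.det := by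
    rw [Algebra.PreSubmersivePresentation.jacobian_eq_jacobiMatrix_det]
    rfl
  have hspan : ∀ i, Ideal.Quotient.mk (Ideal.span (Set.range f)) (f i) = 0 := fun i =>
    Ideal.Quotient.eq_zero_iff_mem.mpr (Ideal.subset_span ⟨i, rfl⟩)
  have hker : ∀ p ∈ Ideal.span (Set.range f), eval₂Hom φ₀ x₀ p = 0 := by
    intro p hp
    have : Ideal.span (Set.range f) ≤ RingHom.ker (eval₂Hom φ₀ x₀) := by
      rw [Ideal.span_le]
      rintro _ ⟨i, rfl⟩
      exact hf i
    exact this hp
  exact exists_generic_solution_aux f a δ φ₀ x₀ hJ hδ P₀ (Ideal.Quotient.mk _) hP₀ hJJ hspan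
    (Ideal.Quotient.lift _ (eval₂Hom φ₀ x₀) hker) (fun p => rfl) (fun r => rfl)

/-- Evaluation of a polynomial in unknowns `σ` with coefficients polynomials in parameters `M`. -/
noncomputable def ev {M σ K : Type} [CommRing K] (s : M → K) (x : σ → K) :
    MvPolynomial σ (MvPolynomial M ℤ) →+* K :=
  eval₂Hom (eval₂Hom (Int.castRingHom K) s) x

/-- A system of polynomial equations with integer coefficients in parameters `M` and unknowns `σ`,
with a solution over some field (of any characteristic) at which the Jacobian minor with respect to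
chosen unknowns is nonzero and at which `δ` is nonzero, is solvable over every algebraically closed
field for all parameters outside the zero set of a nonzero integral polynomial, with `δ` nonzero at
the solution. -/
theorem exists_generic_solution {M ι σ : Type} [Fintype ι] [DecidableEq ι] [Finite σ]
    (f : ι → MvPolynomial σ (MvPolynomial M ℤ)) (a : ι → σ) (ha : Function.Injective a)
    (δ : MvPolynomial σ (MvPolynomial M ℤ)) {K : Type} [Field K] (s₀ : M → K) (x₀ : σ → K)
    (hf : ∀ i, ev s₀ x₀ (f i) = 0)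
    (hJ : (Matrix.of fun i j => ev s₀ x₀ (pderiv (a i) (f j))).det ≠ 0)
    (hδ : ev s₀ x₀ δ ≠ 0) :
    ∃ g : MvPolynomial M ℤ, g ≠ 0 ∧ ∀ (Ω : Type) [Field Ω] [IsAlgClosed Ω] (s : M → Ω),
      eval₂Hom (Int.castRingHom Ω) s g ≠ 0 →
        ∃ x : σ → Ω, (∀ i, ev s x (f i) = 0) ∧ ev s x δ ≠ 0 := by
  obtain ⟨g, hg0, hg⟩ := exists_generic_solution_ring f a ha δ _ x₀ hf hJ hδ
  exact ⟨g, hg0, fun Ω _ _ s hs => hg Ω _ hs⟩

end Pool.Agent.LibGenericSolve
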